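import Mathlib
import Pool.Agent.H54.BadSet

set_option autoImplicit false

namespace Pool.Agent.Results.MP_726576_nt.ItemII

/-- A set of integers is bad when some unimodular sequence has bounded sums over the set along
all homogeneous progressions. -/
def Bad (S : Set ℕ) : Prop :=
  ∃ a : ℕ → ℂ, (∀ n : ℕ, 1 ≤ n → ‖a n‖ = 1) ∧ ∃ C : ℝ, ∀ d n : ℕ, 1 ≤ d → 1 ≤ n →
    ‖∑ k ∈ Finset.Icc 1 n, S.indicator (fun k => a (d * k)) k‖ ≤ C

/-- Item (ii): both sets are bad. -/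
theorem result :
    Bad {k : ℕ | ∃ m : ℕ, 1 ≤ m ∧ k = m ^ 2 + 1} ∧
      Bad {k : ℕ | ∃ m : ℕ, 1 ≤ m ∧ (k : ℤ) = (m : ℤ) ^ 2 - 1} :=
  ⟨Pool.Agent.H54.BadSet.sq_add_one_bad, Pool.Agent.H54.BadSet.sq_sub_one_bad⟩

end Pool.Agent.Results.MP_726576_nt.ItemII
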