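import Mathlib
import Pool.Agent.H54.BadSet

set_option autoImplicit false

namespace Pool.Agent.Results.MP_726576_nt.ItemIII

/-- A set of integers is bad when some unimodular sequence has bounded sums over the set along
all homogeneous progressions. -/
def Bad (S : Set ℕ) : Prop :=
  ∃ a : ℕ → ℂ, (∀ n : ℕ, 1 ≤ n → ‖a n‖ = 1) ∧ ∃ C : ℝ, ∀ d n : ℕ, 1 ≤ d → 1 ≤ n →
    ‖∑ k ∈ Finset.Icc 1 n, S.indicator (fun k => a (d * k)) k‖ ≤ C

/-- Item (iii): the set is bad. -/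
theorem result : Bad {k : ℕ | ∃ m : ℕ, 1 ≤ m ∧ k = 2 ^ m + 1} :=
  Pool.Agent.H54.BadSet.two_pow_add_one_bad

end Pool.Agent.Results.MP_726576_nt.ItemIII
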